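import Pool.Agent.W223.RB.Stms

/-! Part BSGL of project RB (problem MP_4d5ce1_nt): sizes, single primes are light. -/

namespace Pool.Agent.W906.RB

open Pool.Agent.W223.RB Finset

variable {d : ℕ}

theorem exists_A (α β : Fin d → ℤ) : ∃ A : ℤ, 1 ≤ A ∧ ∀ i, |α i| ≤ A ∧ |β i| ≤ A := by
  refine ⟨1 + ∑ i, (|α i| + |β i|), ?_, fun i => ?_⟩
  · have : 0 ≤ ∑ i, (|α i| + |β i|) := sum_nonneg fun i _ => by positivity
    linarith
  · have h : |α i| + |β i| ≤ ∑ i, (|α i| + |β i|) :=
      single_le_sum (f := fun i => |α i| + |β i|) (fun i _ => by positivity) (mem_univ i)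
    constructor <;> linarith [abs_nonneg (α i), abs_nonneg (β i)]

theorem V_le {α β : Fin d → ℤ} {A : ℤ} (hA : ∀ i, |α i| ≤ A ∧ |β i| ≤ A) (i : Fin d)
    (x y : ℤ) : |V α β i x y| ≤ 2 * A * max |x| |y| := by
  unfold V
  have h1 : |α i * x + β i * y| ≤ |α i| * |x| + |β i| * |y| := by
    rw [← abs_mul, ← abs_mul]
    exact abs_add_le _ _
  have hA0 : 0 ≤ A := (abs_nonneg _).trans (hA i).1
  have h2 : |α i| * |x| ≤ A * max |x| |y| :=
    mul_le_mul (hA i).1 (le_max_left _ _) (abs_nonneg _) hA0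
  have h3 : |β i| * |y| ≤ A * max |x| |y| :=
    mul_le_mul (hA i).2 (le_max_right _ _) (abs_nonneg _) hA0
  linarith

theorem Delta_le {α β : Fin d → ℤ} {A : ℤ} (hA : ∀ i, |α i| ≤ A ∧ |β i| ≤ A) (i j : Fin d) :
    |α i * β j - α j * β i| ≤ 2 * A ^ 2 := by
  have h1 : |α i * β j - α j * β i| ≤ |α i| * |β j| + |α j| * |β i| := by
    rw [← abs_mul, ← abs_mul]
    exact abs_sub _ _
  have hA0 : 0 ≤ A := (abs_nonneg _).trans (hA i).1
  have h2 : |α i| * |β j| ≤ A * A := mul_le_mul (hA i).1 (hA j).2 (abs_nonneg _) hA0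
  have h3 : |α j| * |β i| ≤ A * A := mul_le_mul (hA j).1 (hA i).2 (abs_nonneg _) hA0
  nlinarith

theorem dvd_Delta {α β : Fin d → ℤ} {x y m : ℤ} (hxy : IsCoprime x y) {i j : Fin d}
    (hi : m ∣ V α β i x y) (hj : m ∣ V α β j x y) : m ∣ α i * β j - α j * β i := by
  obtain ⟨a, b, hab⟩ := hxy
  obtain ⟨u, hu⟩ := hi
  obtain ⟨w, hw⟩ := hj
  unfold V at hu hw
  refine ⟨a * (β j * u - β i * w) + b * (α i * w - α j * u), ?_⟩
  have h1 : (α i * β j - α j * β i) * x = m * (β j * u - β i * w) := by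
    linear_combination β j * hu - β i * hw
  have h2 : (α i * β j - α j * β i) * y = m * (α i * w - α j * u) := by
    linear_combination α i * hw - α j * hu
  calc α i * β j - α j * β i = (α i * β j - α j * β i) * (a * x + b * y) := by rw [hab, mul_one]
    _ = a * ((α i * β j - α j * β i) * x) + b * ((α i * β j - α j * β i) * y) := by ring
    _ = m * (a * (β j * u - β i * w) + b * (α i * w - α j * u)) := by
      rw [h1, h2]
      ring

theorem natAbs_F (α β : Fin d → ℤ) (x y : ℤ) :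
    (F α β x y).natAbs = ∏ i, (V α β i x y).natAbs := by
  unfold F
  exact map_prod Int.natAbsHom _ _

/-- if `p ^ k` divides the nonzero integer `z` and `|z| ≤ B` then `k log p ≤ log B` -/
theorem log_le_of_dvd {p k : ℕ} (hp : p.Prime) {z : ℤ} {B : ℝ} (hz : z ≠ 0)
    (h : ((p : ℤ) ^ k) ∣ z) (hB : |(z : ℝ)| ≤ B) : (k : ℝ) * Real.log p ≤ Real.log B := by
  have h1 : ((p : ℤ) ^ k) ≤ |z| := Int.le_of_dvd (abs_pos.mpr hz) ((dvd_abs _ _).mpr h)
  have h2 : ((p : ℝ) ^ k) ≤ |(z : ℝ)| := by exact_mod_cast h1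
  have hp0 : (0 : ℝ) < p := by exact_mod_cast hp.pos
  rw [← Real.log_pow]
  exact Real.log_le_log (by positivity) (h2.trans hB)

theorem tBSGL : StmtBSGL := by
  intro d α β hG
  obtain ⟨hd, hind⟩ := hG
  obtain ⟨A, hA1, hA⟩ := exists_A α β
  have hA1r : (1 : ℝ) ≤ A := by exact_mod_cast hA1
  have hA0r : (0 : ℝ) < A := by linarith
  set a : ℝ := Real.log (2 * A) with ha
  set b : ℝ := Real.log (2 * A ^ 2) with hb
  have ha0 : 0 ≤ a := Real.log_nonneg (by linarith)
  have hb0 : 0 ≤ b := Real.log_nonneg (by nlinarith)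
  have hdr : (4 : ℝ) ≤ d := by exact_mod_cast hd
  refine ⟨1 + 64 / 11 * a + 8 / 7 * (a + d * b), ?_, ?_⟩
  · have : 0 ≤ (d : ℝ) * b := by positivity
    linarith
  intro x y hPt hL
  obtain ⟨hxy, hF⟩ := hPt
  set L : ℝ := lH x y with hLdef
  have hdb : 0 ≤ (d : ℝ) * b := by positivity
  have hL1 : 1 ≤ L := by linarith
  have hH : ((max |x| |y| : ℤ) : ℝ) = max |(x : ℝ)| |(y : ℝ)| := by push_cast; rfl
  have hHpos : (0 : ℝ) < max |(x : ℝ)| |(y : ℝ)| := by
    by_contra hneg
    have h0 : max |(x : ℝ)| |(y : ℝ)| = 0 :=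
      le_antisymm (not_lt.mp hneg) ((abs_nonneg _).trans (le_max_left _ _))
    have : L = 0 := by
      rw [hLdef]
      unfold lH
      rw [h0, Real.log_zero]
    linarith
  have hV0 : ∀ i, V α β i x y ≠ 0 := by
    intro i h0
    apply hF
    unfold F
    exact prod_eq_zero (mem_univ i) h0
  have hVle : ∀ i, |(V α β i x y : ℝ)| ≤ 2 * A * max |(x : ℝ)| |(y : ℝ)| := by
    intro i
    have h := V_le hA i x y
    have h2 : ((|V α β i x y| : ℤ) : ℝ) ≤ ((2 * A * max |x| |y| : ℤ) : ℝ) := by exact_mod_cast h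
    rw [Int.cast_abs] at h2
    rw [Int.cast_mul, hH] at h2
    simpa using h2
  have hlogB : Real.log (2 * A * max |(x : ℝ)| |(y : ℝ)|) = a + L := by
    rw [Real.log_mul (by positivity) hHpos.ne']
    rfl
  constructor
  · intro p hp
    have hfac : (F α β x y).natAbs.factorization p =
        ∑ i, (V α β i x y).natAbs.factorization p := by
      rw [natAbs_F, Nat.factorization_prod (fun i _ => Int.natAbs_ne_zero.mpr (hV0 i))]
      simp
    set v : Fin d → ℕ := fun i => (V α β i x y).natAbs.factorization p with hv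
    have hne : (univ : Finset (Fin d)).Nonempty := ⟨⟨0, by omega⟩, mem_univ _⟩
    obtain ⟨i₀, _, hi₀⟩ := exists_max_image univ v hne
    have hdvd : ∀ i, ((p : ℤ) ^ (v i)) ∣ V α β i x y := by
      intro i
      have h1 : p ^ (v i) ∣ (V α β i x y).natAbs := Nat.ordProj_dvd _ _
      have h2 : ((p ^ (v i) : ℕ) : ℤ) ∣ V α β i x y := Int.natCast_dvd.mpr h1
      simpa using h2
    have hterm : ∀ j, (v j : ℝ) * Real.log p ≤ b + if j = i₀ then a + L else 0 := by
      intro j
      by_cases hj : j = i₀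
      · rw [if_pos hj]
        have h1 := log_le_of_dvd hp (hV0 j) (hdvd j) (hVle j)
        rw [hlogB] at h1
        linarith
      · rw [if_neg hj, add_zero]
        have h1 : ((p : ℤ) ^ (v j)) ∣ V α β i₀ x y :=
          (pow_dvd_pow _ (hi₀ j (mem_univ j))).trans (hdvd i₀)
        have h2 : ((p : ℤ) ^ (v j)) ∣ α i₀ * β j - α j * β i₀ := dvd_Delta hxy h1 (hdvd j)
        have h3 : α i₀ * β j - α j * β i₀ ≠ 0 := sub_ne_zero.mpr (hind i₀ j (Ne.symm hj))
        refine log_le_of_dvd hp h3 h2 ?_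
        have h4 := Delta_le hA i₀ j
        have h5 : ((|α i₀ * β j - α j * β i₀| : ℤ) : ℝ) ≤ ((2 * A ^ 2 : ℤ) : ℝ) := by
          exact_mod_cast h4
        rw [Int.cast_abs] at h5
        simpa using h5
    have hsum : ((F α β x y).natAbs.factorization p : ℝ) * Real.log p ≤ d * b + (a + L) := by
      rw [hfac]
      push_cast
      rw [sum_mul]
      refine (sum_le_sum fun j _ => hterm j).trans ?_
      rw [sum_add_distrib, sum_ite_eq' univ i₀, if_pos (mem_univ _), sum_const, card_univ,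
        Fintype.card_fin, nsmul_eq_mul]
    refine hsum.trans ?_
    nlinarith
  · have hlogF : Real.log |(F α β x y : ℝ)| = ∑ i, Real.log |(V α β i x y : ℝ)| := by
      unfold F
      rw [Int.cast_prod, abs_prod, Real.log_prod]
      intro i _
      exact abs_ne_zero.mpr (Int.cast_ne_zero.mpr (hV0 i))
    have h1 : Real.log |(F α β x y : ℝ)| ≤ d * (a + L) := by
      rw [hlogF]
      have h2 : ∀ i ∈ (univ : Finset (Fin d)), Real.log |(V α β i x y : ℝ)| ≤ a + L := by
        intro i _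
        rw [← hlogB]
        exact Real.log_le_log (abs_pos.mpr (Int.cast_ne_zero.mpr (hV0 i))) (hVle i)
      refine (sum_le_sum h2).trans ?_
      rw [sum_const, card_univ, Fintype.card_fin, nsmul_eq_mul]
    refine h1.trans ?_
    have h3 : 64 / 11 * a ≤ L := by linarith
    have h4 : (d : ℝ) * (64 / 11 * a) ≤ d * L := mul_le_mul_of_nonneg_left h3 (by positivity)
    nlinarith

end Pool.Agent.W906.RB
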